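import Pool.Agent.Q291.MK.Stm4

/-!
# Job CRN of project MK: crude bounds for segments
-/

set_option autoImplicit false

namespace Pool.Agent.Q52.MK.CRN

open Pool.Agent.Q291.MK

/-- the majorant -/
noncomputable def G (e m : ℝ) (k : ℕ) : ℝ := (4 + 4 * e) * (1 + ((k:ℝ) - m) ^ 12 / m ^ 6)

/-- the reduced distance plus one -/
noncomputable def u (m : ℝ) (k : ℕ) : ℝ := |(k:ℝ) - m| / √m + 1

lemma one_le_wt {e m : ℝ} (he : 0 ≤ e) (hm : 0 < m) (k : ℕ) : 1 ≤ wt e m k := by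
  unfold wt
  have : 0 ≤ e * (((k:ℝ) - m) ^ 10 / m ^ 5) := by
    have : 0 ≤ ((k:ℝ) - m) ^ 10 := Even.pow_nonneg (by decide) _
    positivity
  linarith

lemma one_le_u {m : ℝ} (k : ℕ) : 1 ≤ u m k := by
  unfold u
  have : 0 ≤ |(k:ℝ) - m| / √m := by positivity
  linarith

lemma sq_mul_le {e y : ℝ} (he : 0 ≤ e) (hy : 0 ≤ y) :
    (y + 1) ^ 2 * (1 + e * y ^ 10) ≤ (4 + 4 * e) * (1 + y ^ 12) := by
  have h1 : y ^ 2 ≤ 1 + y ^ 12 := by
    rcases le_total y 1 with h | h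
    · have : y ^ 2 ≤ 1 := pow_le_one₀ hy h
      have : 0 ≤ y ^ 12 := by positivity
      linarith
    · have : y ^ 2 ≤ y ^ 12 := pow_le_pow_right₀ h (by norm_num)
      linarith
  have h2 : y ^ 10 ≤ 1 + y ^ 12 := by
    rcases le_total y 1 with h | h
    · have : y ^ 10 ≤ 1 := pow_le_one₀ hy h
      have : 0 ≤ y ^ 12 := by positivity
      linarith
    · have : y ^ 10 ≤ y ^ 12 := pow_le_pow_right₀ h (by norm_num)
      linarith
  have h3 : (y + 1) ^ 2 ≤ 2 * y ^ 2 + 2 := by nlinarith [sq_nonneg (y - 1)]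
  have h4 : 0 ≤ 1 + e * y ^ 10 := by positivity
  calc (y + 1) ^ 2 * (1 + e * y ^ 10) ≤ (2 * y ^ 2 + 2) * (1 + e * y ^ 10) :=
        mul_le_mul_of_nonneg_right h3 h4
    _ = 2 * y ^ 2 + 2 + 2 * e * y ^ 12 + 2 * e * y ^ 10 := by ring
    _ ≤ 2 * (1 + y ^ 12) + 2 + 2 * e * y ^ 12 + 2 * e * (1 + y ^ 12) := by
        have := mul_le_mul_of_nonneg_left h2 he
        nlinarith
    _ ≤ _ := by
        have : 0 ≤ y ^ 12 := by positivity
        nlinarith

lemma abs_div_pow {x m : ℝ} (hm : 0 < m) (n : ℕ) : (|x| / √m) ^ (2 * n) = x ^ (2 * n) / m ^ n := by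
  rw [div_pow, pow_mul, pow_mul, sq_abs, Real.sq_sqrt hm.le, ← pow_mul]

lemma uw_le {e m : ℝ} (he : 0 ≤ e) (hm : 0 < m) (k : ℕ) : u m k ^ 2 * wt e m k ≤ G e m k := by
  have h := sq_mul_le he (y := |(k:ℝ) - m| / √m) (by positivity)
  have h5 := abs_div_pow (x := (k:ℝ) - m) hm 5
  have h6 := abs_div_pow (x := (k:ℝ) - m) hm 6
  norm_num at h5 h6
  rw [h5, h6] at h
  exact h

lemma uw1_le {e m : ℝ} (he : 0 ≤ e) (hm : 0 < m) (k : ℕ) : u m k * wt e m k ≤ G e m k := by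
  refine le_trans ?_ (uw_le he hm k)
  have h1 := one_le_u (m := m) k
  have h2 := one_le_wt he hm k
  have : u m k ≤ u m k ^ 2 := by nlinarith
  exact mul_le_mul_of_nonneg_right this (by linarith)

lemma G_nonneg {e m : ℝ} (he : 0 ≤ e) (hm : 0 < m) (k : ℕ) : 0 ≤ G e m k := by
  refine le_trans ?_ (uw1_le he hm k)
  have h1 := one_le_u (m := m) k
  have h2 := one_le_wt he hm k
  positivity

/-! ### telescoping -/

lemma tele0 (f : ℕ → ℝ) (J0 n : ℕ) (B : ℝ) (h : ∀ i, J0 ≤ i → i < J0 + n → |dl f i| ≤ B) :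
    |f (J0 + n) - f J0| ≤ n * B := by
  induction n with
  | zero => simp
  | succ n ih =>
    have h1 := ih fun i h1 h2 => h i h1 (by omega)
    have h2 := h (J0 + n) (by omega) (by omega)
    unfold dl at h2
    have : f (J0 + (n + 1)) - f J0 = (f (J0 + n + 1) - f (J0 + n)) + (f (J0 + n) - f J0) := by
      rw [← add_assoc]; ring
    rw [this]
    refine (abs_add_le _ _).trans ?_
    push_cast
    linarith

lemma tele (f : ℕ → ℝ) (J0 J : ℕ) (B : ℝ)
    (h : ∀ i, min J0 J ≤ i → i < max J0 J → |dl f i| ≤ B) :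
    |f J - f J0| ≤ |(J:ℝ) - J0| * B := by
  rcases le_total J0 J with hj | hj
  · obtain ⟨n, rfl⟩ := Nat.exists_eq_add_of_le hj
    have := tele0 f J0 n B fun i h1 h2 => h i (by omega) (by omega)
    refine this.trans (le_of_eq ?_)
    push_cast
    rw [add_sub_cancel_left, abs_of_nonneg (Nat.cast_nonneg n)]
  · obtain ⟨n, rfl⟩ := Nat.exists_eq_add_of_le hj
    have := tele0 f J n B fun i h1 h2 => h i (by omega) (by omega)
    rw [abs_sub_comm]
    refine this.trans (le_of_eq ?_)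
    push_cast
    rw [abs_sub_comm, add_sub_cancel_left, abs_of_nonneg (Nat.cast_nonneg n)]

lemma floor_near {m : ℝ} (hm : 1 ≤ m) : |((⌊m⌋₊ : ℕ) : ℝ) - m| ≤ 1 := by
  have h1 := Nat.floor_le (by linarith : (0:ℝ) ≤ m)
  have h2 := Nat.lt_floor_add_one m
  rw [abs_le]; constructor <;> linarith

lemma btw {m : ℝ} {J0 J i : ℕ} (h0 : |(J0:ℝ) - m| ≤ 1) (h1 : min J0 J ≤ i) (h2 : i < max J0 J) :
    |(i:ℝ) - m| ≤ max |(J:ℝ) - m| 1 := by
  have h3 : ((min J0 J : ℕ) : ℝ) ≤ i := by exact_mod_cast h1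
  have h4 : (i:ℝ) ≤ ((max J0 J : ℕ) : ℝ) := by exact_mod_cast h2.le
  have h5 := abs_le.1 h0
  rcases le_total J0 J with hj | hj
  · rw [min_eq_left hj] at h3
    rw [max_eq_right hj] at h4
    rw [abs_le]
    constructor
    · have := le_max_right |(J:ℝ) - m| 1
      linarith
    · have := le_max_left |(J:ℝ) - m| 1
      have := le_abs_self ((J:ℝ) - m)
      linarith
  · rw [min_eq_right hj] at h3
    rw [max_eq_left hj] at h4
    rw [abs_le]
    constructor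
    · have := le_max_left |(J:ℝ) - m| 1
      have := neg_abs_le ((J:ℝ) - m)
      linarith
    · have := le_max_right |(J:ℝ) - m| 1
      linarith

lemma wt_btw {e m : ℝ} (he : 0 ≤ e) (hm : 1 ≤ m) {J i : ℕ}
    (h : |(i:ℝ) - m| ≤ max |(J:ℝ) - m| 1) : wt e m i ≤ (1 + e) * wt e m J := by
  have h1 : ((i:ℝ) - m) ^ 10 ≤ ((J:ℝ) - m) ^ 10 + 1 := by
    have h2 : ((i:ℝ) - m) ^ 10 = |(i:ℝ) - m| ^ 10 := by
      rw [Even.pow_abs (by decide)]
    have h3 : ((J:ℝ) - m) ^ 10 = |(J:ℝ) - m| ^ 10 := by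
      rw [Even.pow_abs (by decide)]
    rw [h2, h3]
    have h4 : |(i:ℝ) - m| ^ 10 ≤ (max |(J:ℝ) - m| 1) ^ 10 :=
      pow_le_pow_left₀ (abs_nonneg _) h 10
    refine h4.trans ?_
    rcases le_total |(J:ℝ) - m| 1 with h5 | h5
    · rw [max_eq_right h5]
      have : 0 ≤ |(J:ℝ) - m| ^ 10 := by positivity
      linarith
    · rw [max_eq_left h5]
      linarith
  have hw := one_le_wt he (by linarith : 0 < m) J
  have h6 : ((i:ℝ) - m) ^ 10 / m ^ 5 ≤ ((J:ℝ) - m) ^ 10 / m ^ 5 + 1 := by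
    have h7 : (1:ℝ) ≤ m ^ 5 := one_le_pow₀ hm
    rw [div_add_one (by positivity)]
    refine div_le_div_of_nonneg_right ?_ (by positivity)
    linarith
  have h8 := mul_le_mul_of_nonneg_left h6 he
  have h9 : wt e m i ≤ wt e m J + e := by
    unfold wt
    linarith
  nlinarith

lemma u_btw {m : ℝ} (hm : 1 ≤ m) {J i : ℕ}
    (h : |(i:ℝ) - m| ≤ max |(J:ℝ) - m| 1) : u m i ≤ 2 * u m J := by
  have h1 : |(i:ℝ) - m| ≤ |(J:ℝ) - m| + 1 := h.trans (max_le (by linarith) (by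
    have := abs_nonneg ((J:ℝ) - m); linarith))
  have hs : 1 ≤ √m := Real.one_le_sqrt.2 hm
  have h2 : |(i:ℝ) - m| / √m ≤ |(J:ℝ) - m| / √m + 1 := by
    rw [div_add_one (by positivity)]
    refine div_le_div_of_nonneg_right ?_ (by positivity)
    linarith
  have h3 : 0 ≤ |(J:ℝ) - m| / √m := by positivity
  unfold u
  linarith

lemma dist_le {m : ℝ} (hm : 1 ≤ m) {J0 : ℕ} (J : ℕ) (h0 : |(J0:ℝ) - m| ≤ 1) :
    |(J:ℝ) - J0| ≤ √m * u m J := by
  have hs : 1 ≤ √m := Real.one_le_sqrt.2 hm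
  have h1 : |(J:ℝ) - J0| ≤ |(J:ℝ) - m| + |(J0:ℝ) - m| := by
    rw [abs_sub_comm (J0:ℝ) m]
    have := abs_add_le ((J:ℝ) - m) (m - J0)
    rwa [sub_add_sub_cancel] at this
  have h2 : √m * u m J = |(J:ℝ) - m| + √m := by
    unfold u
    field_simp
  rw [h2]
  linarith

/-- growth of the first difference -/
lemma growth1 {e m : ℝ} (he : 0 ≤ e) (hm : 1 ≤ m) {φ : ℕ → ℝ} (h : Tst e m φ) (J : ℕ) :
    |dl φ J - dl φ ⌊m⌋₊| ≤ (1 + e) * √m * (u m J * wt e m J) := by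
  have h0 := floor_near hm
  have h1 := tele (dl φ) ⌊m⌋₊ J ((1 + e) * wt e m J) fun i h1 h2 =>
    (h.bd i).trans (wt_btw he hm (btw h0 h1 h2))
  refine h1.trans ?_
  have h2 := dist_le hm J h0
  have h3 := one_le_wt he (by linarith : 0 < m) J
  calc |(J:ℝ) - (⌊m⌋₊ : ℕ)| * ((1 + e) * wt e m J) ≤ (√m * u m J) * ((1 + e) * wt e m J) :=
        mul_le_mul_of_nonneg_right h2 (by positivity)
    _ = _ := by ring

lemma growth1G {e m : ℝ} (he : 0 ≤ e) (hm : 1 ≤ m) {φ : ℕ → ℝ} (h : Tst e m φ) (J : ℕ) :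
    |dl φ J - dl φ ⌊m⌋₊| ≤ (1 + e) * √m * G e m J :=
  (growth1 he hm h J).trans (mul_le_mul_of_nonneg_left (uw1_le he (by linarith) J) (by positivity))

/-- growth of the function -/
lemma growth2 {e m K : ℝ} (he : 0 ≤ e) (hm : 1 ≤ m) (hK : 0 ≤ K) {ψ : ℕ → ℝ}
    (h : ∀ i, |dl ψ i| ≤ K * √m * (u m i * wt e m i)) (J : ℕ) :
    |ψ J - ψ ⌊m⌋₊| ≤ 2 * K * (1 + e) * m * G e m J := by
  have h0 := floor_near hm
  have hu := one_le_u (m := m) J
  have hw := one_le_wt he (by linarith : 0 < m) J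
  have hs : √m * √m = m := Real.mul_self_sqrt (by linarith)
  have h1 := tele ψ ⌊m⌋₊ J (K * √m * (2 * u m J * ((1 + e) * wt e m J))) fun i h1 h2 => by
    refine (h i).trans ?_
    have h3 := wt_btw he hm (btw h0 h1 h2)
    have h4 := u_btw hm (btw h0 h1 h2)
    have h5 := one_le_wt he (by linarith : 0 < m) i
    have h6 := one_le_u (m := m) i
    refine mul_le_mul_of_nonneg_left ?_ (by positivity)
    exact mul_le_mul h4 h3 (by linarith) (by linarith)
  refine h1.trans ?_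
  have h2 := dist_le hm J h0
  calc |(J:ℝ) - (⌊m⌋₊ : ℕ)| * (K * √m * (2 * u m J * ((1 + e) * wt e m J)))
      ≤ (√m * u m J) * (K * √m * (2 * u m J * ((1 + e) * wt e m J))) :=
        mul_le_mul_of_nonneg_right h2 (by positivity)
    _ = 2 * K * (1 + e) * (√m * √m) * (u m J ^ 2 * wt e m J) := by ring
    _ = 2 * K * (1 + e) * m * (u m J ^ 2 * wt e m J) := by rw [hs]
    _ ≤ _ := by
      refine mul_le_mul_of_nonneg_left (uw_le he (by linarith) J) ?_
      have : 0 ≤ m := by linarith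
      positivity

/-! ### polynomial bounds -/

lemma PB_shift {φ : ℕ → ℝ} (h : PB φ) : PB (fun k => φ (k + 1)) := by
  obtain ⟨C, q, hC, h⟩ := h.nonneg_C
  refine ⟨C * 2 ^ q, q, fun k => (h (k + 1)).trans ?_⟩
  rw [mul_assoc, ← mul_pow]
  refine mul_le_mul_of_nonneg_left (pow_le_pow_left₀ (by positivity) ?_ q) hC
  push_cast
  have : (0:ℝ) ≤ k := Nat.cast_nonneg k
  linarith

lemma PB_dl {φ : ℕ → ℝ} (h : PB φ) : PB (dl φ) := (PB_shift h).sub h

lemma PB_G (e m : ℝ) : PB (G e m) := by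
  unfold G
  have h1 : PB (fun k : ℕ => ((k:ℝ) - m) ^ 12) := (PB.id.sub (PB.const m)).pow 12
  have h2 : PB (fun k : ℕ => ((k:ℝ) - m) ^ 12 / m ^ 6) := by
    simpa [div_eq_mul_inv] using h1.mul (PB.const (m ^ 6)⁻¹)
  exact (PB.const _).mul ((PB.const 1).add h2)

/-! ### expectations -/

lemma E_G {e m : ℝ} {b : ℕ → ℝ} (hb : AM b) :
    E b (G e m) = (4 + 4 * e) * (1 + E b (fun k => ((k:ℝ) - m) ^ 12) / m ^ 6) := by
  have h1 : PB (fun k : ℕ => ((k:ℝ) - m) ^ 12) := (PB.id.sub (PB.const m)).pow 12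
  have h2 : PB (fun k : ℕ => (m ^ 6)⁻¹ * ((k:ℝ) - m) ^ 12) := (PB.const _).mul h1
  have h3 : G e m = fun k : ℕ => (4 + 4 * e) * (1 + (m ^ 6)⁻¹ * ((k:ℝ) - m) ^ 12) := by
    funext k
    unfold G
    rw [div_eq_mul_inv, mul_comm (((k:ℝ) - m) ^ 12)]
  rw [h3, E_const_mul, hb.E_add (PB.const 1) h2, hb.toLaw.E_const, E_const_mul,
    div_eq_mul_inv, mul_comm (E b _)]

lemma E_G_le {e m B : ℝ} (he : 0 ≤ e) (hm : 0 < m) {b : ℕ → ℝ} (hb : AM b)
    (h : E b (fun k => ((k:ℝ) - m) ^ 12) ≤ B * m ^ 6) : E b (G e m) ≤ (4 + 4 * e) * (1 + B) := by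
  rw [E_G hb]
  refine mul_le_mul_of_nonneg_left ?_ (by positivity)
  have : E b (fun k => ((k:ℝ) - m) ^ 12) / m ^ 6 ≤ B := by
    rw [div_le_iff₀ (by positivity)]
    exact h
  linarith

lemma E_abs_le {b f g : ℕ → ℝ} {c : ℝ} (hb : AM b) (hf : PB f) (hg : PB g)
    (h : ∀ k, |f k| ≤ c * g k) : |E b f| ≤ c * E b g := by
  refine (hb.abs_E_le hf).trans ?_
  rw [← E_const_mul]
  exact hb.E_mono hf.abs ((PB.const c).mul hg) h

/-- change of the centre -/
lemma shift12 {b : ℕ → ℝ} {C m δ : ℝ} (hb : AM b) (h12 : m12 b ≤ C * mean b ^ 6)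
    (hd : |mean b - m| ≤ δ) :
    E b (fun k => ((k:ℝ) - m) ^ 12) ≤ 2 ^ 11 * (C * mean b ^ 6 + δ ^ 12) := by
  have h1 : PB (fun k : ℕ => ((k:ℝ) - mean b) ^ 12) := (PB.id.sub (PB.const _)).pow 12
  have h2 : PB (fun k : ℕ => ((k:ℝ) - m) ^ 12) := (PB.id.sub (PB.const _)).pow 12
  have h3 : ∀ k : ℕ, ((k:ℝ) - m) ^ 12 ≤ 2 ^ 11 * (((k:ℝ) - mean b) ^ 12 + δ ^ 12) := by
    intro k
    have e1 : ((k:ℝ) - m) ^ 12 = |(k:ℝ) - m| ^ 12 := by rw [Even.pow_abs (by decide)]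
    have e2 : ((k:ℝ) - mean b) ^ 12 = |(k:ℝ) - mean b| ^ 12 := by
      rw [Even.pow_abs (by decide)]
    have e3 : |(k:ℝ) - m| ≤ |(k:ℝ) - mean b| + |mean b - m| := by
      have := abs_add_le ((k:ℝ) - mean b) (mean b - m)
      rwa [sub_add_sub_cancel] at this
    have e4 : |(k:ℝ) - m| ≤ |(k:ℝ) - mean b| + δ := by linarith
    rw [e1, e2]
    refine (pow_le_pow_left₀ (abs_nonneg _) e4 12).trans ?_
    exact add_pow_le (abs_nonneg _) ((abs_nonneg _).trans hd) 12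
  refine (hb.E_mono h2 ((PB.const (2 ^ 11)).mul (h1.add (PB.const (δ ^ 12)))) h3).trans ?_
  rw [E_const_mul, hb.E_add h1 (PB.const _), hb.toLaw.E_const]
  have : E b (fun k => ((k:ℝ) - mean b) ^ 12) = m12 b := rfl
  rw [this]
  linarith

/-! ### differences of laws and segments -/

lemma E_diff {a b φ : ℕ → ℝ} (ha : AM a) (hb : AM b) (h : PB φ) :
    E (fun k => b k - a k) φ = E b φ - E a φ := by
  unfold E
  rw [← (hb.summ h).tsum_sub (ha.summ h)]
  exact tsum_congr fun k => by ring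

lemma E_seg {a b φ : ℕ → ℝ} {s : ℝ} (ha : AM a) (hb : AM b) (h : PB φ) :
    E (fun k => (1 - s) * a k + s * b k) φ = (1 - s) * E a φ + s * E b φ := by
  unfold E
  rw [← tsum_mul_left, ← tsum_mul_left,
    ← ((ha.summ h).mul_left (1 - s)).tsum_add ((hb.summ h).mul_left s)]
  exact tsum_congr fun k => by ring

lemma sg_diff {a b : ℕ → ℝ} (ha : AM a) (hb : AM b) : Sg (fun k => b k - a k) := by
  refine ⟨fun q => ?_, ?_⟩
  · refine Summable.of_nonneg_of_le (fun k => by positivity) (fun k => ?_)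
      ((ha.mom q).add (hb.mom q))
    have h1 : |b k - a k| ≤ a k + b k := by
      rw [abs_le]
      have := ha.nn k
      have := hb.nn k
      constructor <;> linarith
    have := mul_le_mul_of_nonneg_right h1 (by positivity : (0:ℝ) ≤ (k:ℝ) ^ q)
    linarith
  · rw [E_diff ha hb (PB.const 1), ha.toLaw.E_const, hb.toLaw.E_const, sub_self]

lemma mean_seg {a b : ℕ → ℝ} {s : ℝ} (ha : AM a) (hb : AM b) :
    mean (fun k => (1 - s) * a k + s * b k) = (1 - s) * mean a + s * mean b :=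
  E_seg ha hb PB.id

/-- expectation of the deviation of the first difference -/
lemma dev {e m B : ℝ} (he : 0 ≤ e) (hm : 1 ≤ m) {b φ : ℕ → ℝ} (hb : AM b) (h : Tst e m φ)
    (hB : E b (fun k => ((k:ℝ) - m) ^ 12) ≤ B * m ^ 6) :
    |E b (dl φ) - dl φ ⌊m⌋₊| ≤ (1 + e) * √m * ((4 + 4 * e) * (1 + B)) := by
  have h1 : E b (dl φ) - dl φ ⌊m⌋₊ = E b (fun k => dl φ k - dl φ ⌊m⌋₊) := by
    rw [hb.E_sub (PB_dl h.pb) (PB.const _), hb.toLaw.E_const]
  rw [h1]
  refine (E_abs_le hb ((PB_dl h.pb).sub (PB.const _)) (PB_G e m)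
    (fun k => growth1G he hm h k)).trans ?_
  exact mul_le_mul_of_nonneg_left (E_G_le he (by linarith) hb hB) (by positivity)

/-- part one -/
lemma part1 {C3 C8 C12 M e C : ℝ} (hc : Cst C3 C8 C12 M e C) {a : ℕ → ℝ}
    (ha : Cl (C3 + 3) (C8 + 1) (C12 + 1) a) (hM : M ≤ mean a) {φ : ℕ → ℝ}
    (h : Tst e (mean a) φ) : E a (fun k => |dl φ k - E a (dl φ)|) ≤
      2 * (1 + e) * ((4 + 4 * e) * (1 + (C12 + 1))) * √(mean a) := by
  have he := hc.he.le
  have hm : 1 ≤ mean a := by have := hc.hM; linarith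
  have hA : AM a := ha.toAM
  have hB : E a (fun k => ((k:ℝ) - mean a) ^ 12) ≤ (C12 + 1) * mean a ^ 6 := ha.m12_le
  have h1 := dev he hm hA h hB
  set X := (4 + 4 * e) * (1 + (C12 + 1)) with hX
  set J0 := ⌊mean a⌋₊ with hJ
  have h2 : ∀ k, |dl φ k - E a (dl φ)| ≤ (1 + e) * √(mean a) * G e (mean a) k +
      (1 + e) * √(mean a) * X := by
    intro k
    have e1 := growth1G he hm h k
    have e2 : |dl φ k - E a (dl φ)| ≤ |dl φ k - dl φ J0| + |E a (dl φ) - dl φ J0| := by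
      rw [abs_sub_comm (E a (dl φ))]
      have := abs_add_le (dl φ k - dl φ J0) (dl φ J0 - E a (dl φ))
      rwa [sub_add_sub_cancel] at this
    linarith
  have hp := PB_dl h.pb
  refine (hA.E_mono ((hp.sub (PB.const _)).abs)
    (((PB.const ((1 + e) * √(mean a))).mul (PB_G e (mean a))).add (PB.const _)) h2).trans ?_
  rw [hA.E_add ((PB.const ((1 + e) * √(mean a))).mul (PB_G e (mean a))) (PB.const _),
    E_const_mul, hA.toLaw.E_const]
  have h3 := E_G_le he (by linarith) hA hB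
  have h4 := mul_le_mul_of_nonneg_left h3 (by positivity : 0 ≤ (1 + e) * √(mean a))
  rw [← hX] at h4
  linarith

/-- part two, the estimate -/
lemma part2 {C3 C8 C12 M e C : ℝ} (hc : Cst C3 C8 C12 M e C) {a b : ℕ → ℝ}
    (ha : Cl C3 C8 C12 a) (hb : Cl C3 C8 C12 b) (hM : M ≤ mean a)
    (hab : |mean b - mean a| ≤ 3) (hva : vr a ≤ 3 / 4 * mean a) (hvb : vr b ≤ 3 / 4 * mean b)
    {s : ℝ} (hs0 : 0 ≤ s) (hs1 : s ≤ 1) {φ : ℕ → ℝ}
    (h : Tst e (mean (fun k => (1 - s) * a k + s * b k)) φ) :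
    |E (fun k => b k - a k) φ - (mean b - mean a) *
        E (fun k => (1 - s) * a k + s * b k) (dl φ)| ≤
      8 * (1 + e) ^ 2 * (1 + (4 + 4 * e) * (1 + (C12 + 1))) *
        ((4 + 4 * e) * (1 + 2 ^ 11 * (64 * C12 + 5))) * mean a := by
  have he := hc.he.le
  have h10 := hc.hM
  have h12 := hc.h12
  have hA : AM a := ha.toAM
  have hB : AM b := hb.toAM
  have hS := hc.mix a b ha hb hM hab hva hvb s hs0 hs1
  have hSA : AM (fun k => (1 - s) * a k + s * b k) := hS.toAM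
  have hms := mean_seg (s := s) hA hB
  have h12S := hS.m12_le
  set as := fun k => (1 - s) * a k + s * b k with has
  set m := mean as with hmdef
  have hab' := abs_le.1 hab
  have hd1 : |mean a - m| ≤ 3 := by
    rw [hms]
    have : mean a - ((1 - s) * mean a + s * mean b) = s * (mean a - mean b) := by ring
    rw [this, abs_mul, abs_of_nonneg hs0, abs_sub_comm]
    nlinarith [abs_nonneg (mean b - mean a)]
  have hd2 : |mean b - m| ≤ 3 := by
    rw [hms]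
    have : mean b - ((1 - s) * mean a + s * mean b) = (1 - s) * (mean b - mean a) := by ring
    rw [this, abs_mul, abs_of_nonneg (by linarith : 0 ≤ 1 - s)]
    nlinarith [abs_nonneg (mean b - mean a)]
  have hd1' := abs_le.1 hd1
  have hd2' := abs_le.1 hd2
  have hm7 : 7 ≤ m := by linarith
  have hm1 : 1 ≤ m := by linarith
  have hm6 : (7:ℝ) ^ 6 ≤ m ^ 6 := pow_le_pow_left₀ (by norm_num) hm7 6
  have bnd : ∀ c : ℕ → ℝ, Cl C3 C8 C12 c → |mean c - m| ≤ 3 → 0 ≤ mean c →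
      E c (fun k => ((k:ℝ) - m) ^ 12) ≤ (2 ^ 11 * (64 * C12 + 5)) * m ^ 6 := by
    intro c hcl hd h0
    have e1 := shift12 (C := C12) hcl.toAM hcl.m12_le hd
    refine e1.trans ?_
    have e2 : mean c ≤ 2 * m := by
      have := (abs_le.1 hd).2
      linarith
    have e3 : mean c ^ 6 ≤ (2 * m) ^ 6 := pow_le_pow_left₀ h0 e2 6
    have e4 : C12 * mean c ^ 6 ≤ C12 * (2 * m) ^ 6 :=
      mul_le_mul_of_nonneg_left e3 (by linarith)
    have e5 : (3:ℝ) ^ 12 ≤ 5 * m ^ 6 := by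
      refine le_trans ?_ (mul_le_mul_of_nonneg_left hm6 (by norm_num))
      norm_num
    have e6 : C12 * (2 * m) ^ 6 = 64 * C12 * m ^ 6 := by ring
    nlinarith
  have hma : 0 ≤ mean a := by linarith
  have hmb : 0 ≤ mean b := by linarith
  have hBa := bnd a ha hd1 hma
  have hBb := bnd b hb hd2 hmb
  set X := (4 + 4 * e) * (1 + (C12 + 1)) with hX
  have hX0 : 0 ≤ X := by rw [hX]; positivity
  set Y := (4 + 4 * e) * (1 + 2 ^ 11 * (64 * C12 + 5)) with hY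
  have hY0 : 0 ≤ Y := by rw [hY]; positivity
  set α := E as (dl φ) with hα
  have hdev := dev he hm1 hSA h h12S
  rw [← hX, ← hα] at hdev
  -- the corrected function
  set ψ : ℕ → ℝ := fun k => φ k - α * k with hψ
  have hψp : PB ψ := h.pb.sub ((PB.const α).mul PB.id)
  have hdψ : ∀ i, |dl ψ i| ≤ (1 + e) * (1 + X) * √m * (u m i * wt e m i) := by
    intro i
    have e1 : dl ψ i = dl φ i - α := by
      simp only [hψ, dl]
      push_cast
      ring
    have e2 := growth1 he hm1 h i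
    have e3 : |dl φ i - α| ≤ |dl φ i - dl φ ⌊m⌋₊| + |α - dl φ ⌊m⌋₊| := by
      rw [abs_sub_comm α]
      have := abs_add_le (dl φ i - dl φ ⌊m⌋₊) (dl φ ⌊m⌋₊ - α)
      rwa [sub_add_sub_cancel] at this
    rw [e1]
    refine e3.trans ((add_le_add e2 hdev).trans ?_)
    have e4 : 1 ≤ u m i * wt e m i := by
      have := one_le_u (m := m) i
      have := one_le_wt he (by linarith : 0 < m) i
      nlinarith
    have e5 : (1 + e) * √m * X ≤ (1 + e) * √m * X * (u m i * wt e m i) :=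
      le_mul_of_one_le_right (by positivity) e4
    calc _ ≤ (1 + e) * √m * (u m i * wt e m i) + (1 + e) * √m * X * (u m i * wt e m i) := by
          linarith
      _ = _ := by ring
  have hgr := growth2 he hm1 (by positivity : 0 ≤ (1 + e) * (1 + X)) hdψ
  set F := 2 * ((1 + e) * (1 + X)) * (1 + e) * m with hF
  have hF0 : 0 ≤ F := by rw [hF]; positivity
  have key : ∀ c : ℕ → ℝ, AM c → E c (fun k => ((k:ℝ) - m) ^ 12) ≤
      (2 ^ 11 * (64 * C12 + 5)) * m ^ 6 → |E c ψ - ψ ⌊m⌋₊| ≤ F * Y := by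
    intro c hcA hcB
    have e1 : E c ψ - ψ ⌊m⌋₊ = E c (fun k => ψ k - ψ ⌊m⌋₊) := by
      rw [hcA.E_sub hψp (PB.const _), hcA.toLaw.E_const]
    rw [e1]
    refine (E_abs_le hcA (hψp.sub (PB.const _)) (PB_G e m) hgr).trans ?_
    exact mul_le_mul_of_nonneg_left (E_G_le he (by linarith) hcA hcB) hF0
  have k1 := key a hA hBa
  have k2 := key b hB hBb
  have e1 : E (fun k => b k - a k) φ - (mean b - mean a) * α = E b ψ - E a ψ := by
    rw [E_diff hA hB h.pb]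
    simp only [hψ]
    rw [hA.E_sub h.pb ((PB.const α).mul PB.id), hB.E_sub h.pb ((PB.const α).mul PB.id),
      E_const_mul, E_const_mul]
    simp only [mean]
    ring
  rw [e1]
  have e2 : |E b ψ - E a ψ| ≤ |E b ψ - ψ ⌊m⌋₊| + |E a ψ - ψ ⌊m⌋₊| := by
    rw [abs_sub_comm (E a ψ)]
    have := abs_add_le (E b ψ - ψ ⌊m⌋₊) (ψ ⌊m⌋₊ - E a ψ)
    rwa [sub_add_sub_cancel] at this
  refine e2.trans ((add_le_add k2 k1).trans ?_)
  have e3 : m ≤ 2 * mean a := by linarith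
  have e4 : F * Y + F * Y = 4 * (1 + e) ^ 2 * (1 + X) * Y * m := by rw [hF]; ring
  rw [e4]
  have e5 := mul_le_mul_of_nonneg_left e3 (by positivity : 0 ≤ 4 * (1 + e) ^ 2 * (1 + X) * Y)
  linarith

/-- the power inequality -/
lemma pow10 {x δ : ℝ} (hx : 0 ≤ x) (hδ : 0 ≤ δ) :
    (x + δ) ^ 10 ≤ (21 / 20) ^ 9 * x ^ 10 + 21 ^ 9 * δ ^ 10 := by
  have hc : ConvexOn ℝ (Set.Ici (0:ℝ)) (fun z : ℝ => z ^ 10) := convexOn_pow 10
  have h1 : (21 / 20 * x) ∈ Set.Ici (0:ℝ) := by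
    rw [Set.mem_Ici]; positivity
  have h2 : (21 * δ) ∈ Set.Ici (0:ℝ) := by
    rw [Set.mem_Ici]; positivity
  have h := hc.2 h1 h2 (by norm_num : (0:ℝ) ≤ 20 / 21) (by norm_num : (0:ℝ) ≤ 1 / 21)
    (by norm_num)
  simp only [smul_eq_mul] at h
  have e1 : (20 / 21 * (21 / 20 * x) + 1 / 21 * (21 * δ) : ℝ) = x + δ := by ring
  rw [e1] at h
  refine h.trans (le_of_eq ?_)
  ring

/-- part four -/
lemma part4 {e m m' D : ℝ} (he : 0 ≤ e) (hm : 1 ≤ m) (hD : 21 * (1 + e) ≤ D)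
    (hd : |m' - m| ≤ √m / D) (J : ℕ) : wt e m J ≤ 2 * wt e m' J := by
  have hD21 : 21 ≤ D := by nlinarith
  have hD0 : 0 < D := by linarith
  have hs1 : 1 ≤ √m := Real.one_le_sqrt.2 hm
  have hsm : √m ≤ m := by
    have := Real.mul_self_sqrt (by linarith : 0 ≤ m)
    nlinarith
  have hδ : √m / D ≤ m / 21 := by
    rw [div_le_div_iff₀ hD0 (by norm_num)]
    nlinarith
  have hd' := abs_le.1 hd
  have hm'0 : 0 < m' := by linarith
  have hm'1 : m' ≤ 22 / 21 * m := by linarith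
  set x := |(J:ℝ) - m'| with hx
  have e1 : |(J:ℝ) - m| ≤ x + √m / D := by
    have := abs_add_le ((J:ℝ) - m') (m' - m)
    rw [sub_add_sub_cancel] at this
    linarith
  have e2 : ((J:ℝ) - m) ^ 10 ≤ (21 / 20) ^ 9 * ((J:ℝ) - m') ^ 10 + 21 ^ 9 * (√m / D) ^ 10 := by
    have h1 : ((J:ℝ) - m) ^ 10 = |(J:ℝ) - m| ^ 10 := by rw [Even.pow_abs (by decide)]
    have h2 : ((J:ℝ) - m') ^ 10 = x ^ 10 := by rw [hx, Even.pow_abs (by decide)]
    rw [h1, h2]
    refine (pow_le_pow_left₀ (abs_nonneg _) e1 10).trans ?_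
    exact pow10 (abs_nonneg _) (by positivity)
  have e3 : (√m / D) ^ 10 = m ^ 5 / D ^ 10 := by
    rw [div_pow]
    congr 1
    have : √m ^ 10 = (√m ^ 2) ^ 5 := by ring
    rw [this, Real.sq_sqrt (by linarith)]
  have hm5 : 0 < m ^ 5 := by positivity
  have hm'5 : 0 < m' ^ 5 := by positivity
  have e4 : e * 21 ^ 9 / D ^ 10 ≤ 1 := by
    rw [div_le_one (by positivity)]
    have h1 : (21 * (1 + e)) ^ 10 ≤ D ^ 10 := pow_le_pow_left₀ (by positivity) hD 10
    have h2 : (1 + e) ≤ (1 + e) ^ 10 := le_self_pow₀ (by linarith) (by norm_num)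
    have h3 : (21 * (1 + e)) ^ 10 = 21 ^ 10 * (1 + e) ^ 10 := by rw [mul_pow]
    nlinarith
  have e5 : m' ^ 5 / m ^ 5 ≤ (22 / 21) ^ 5 := by
    rw [← div_pow]
    refine pow_le_pow_left₀ (by positivity) ?_ 5
    rw [div_le_iff₀ (by linarith)]
    exact hm'1
  have hp : 0 ≤ ((J:ℝ) - m') ^ 10 := Even.pow_nonneg (by decide) _
  have e6 : ((J:ℝ) - m) ^ 10 / m ^ 5 ≤ 2 * (((J:ℝ) - m') ^ 10 / m' ^ 5) + 21 ^ 9 / D ^ 10 := by
    rw [e3] at e2
    have h1 : ((J:ℝ) - m) ^ 10 / m ^ 5 ≤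
        ((21 / 20) ^ 9 * ((J:ℝ) - m') ^ 10 + 21 ^ 9 * (m ^ 5 / D ^ 10)) / m ^ 5 :=
      div_le_div_of_nonneg_right e2 hm5.le
    refine h1.trans ?_
    have h2 : ((21 / 20) ^ 9 * ((J:ℝ) - m') ^ 10 + 21 ^ 9 * (m ^ 5 / D ^ 10)) / m ^ 5 =
        (21 / 20) ^ 9 * (m' ^ 5 / m ^ 5) * (((J:ℝ) - m') ^ 10 / m' ^ 5) + 21 ^ 9 / D ^ 10 := by
      field_simp
    rw [h2]
    have h3 : (21 / 20 : ℝ) ^ 9 * (m' ^ 5 / m ^ 5) ≤ 2 := by
      have := mul_le_mul_of_nonneg_left e5 (by positivity : (0:ℝ) ≤ (21 / 20) ^ 9)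
      refine this.trans ?_
      norm_num
    have h4 := mul_le_mul_of_nonneg_right h3 (by positivity : 0 ≤ ((J:ℝ) - m') ^ 10 / m' ^ 5)
    linarith
  unfold wt
  have e7 := mul_le_mul_of_nonneg_left e6 he
  have e8 : e * (21 ^ 9 / D ^ 10) ≤ 1 := by rw [← mul_div_assoc]; exact e4
  nlinarith

theorem main : P_CRN := by
  intro C3 C8 C12 M e C hc
  have he := hc.he
  have h12 := hc.h12
  have h10 := hc.hM
  set A1 := 2 * (1 + e) * ((4 + 4 * e) * (1 + (C12 + 1))) with hA1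
  set A2 := 8 * (1 + e) ^ 2 * (1 + (4 + 4 * e) * (1 + (C12 + 1))) *
        ((4 + 4 * e) * (1 + 2 ^ 11 * (64 * C12 + 5))) with hA2
  set A4 := 2 * (1 + e) * ((4 + 4 * e) * (1 + 2 ^ 11 * (64 * (C12 + 1) + 1))) with hA4
  have p1 : 0 ≤ A1 := by rw [hA1]; positivity
  have p2 : 0 ≤ A2 := by rw [hA2]; positivity
  have p4 : 0 ≤ A4 := by rw [hA4]; positivity
  refine ⟨21 * (1 + e) + A1 + A2 + A4, by positivity, ?_, ?_, ?_, ?_⟩
  · intro a ha hM φ h
    refine (part1 hc ha hM h).trans ?_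
    exact mul_le_mul_of_nonneg_right (by linarith) (Real.sqrt_nonneg _)
  · intro a b ha hb hM hab hva hvb s hs0 hs1
    refine ⟨sg_diff ha.toAM hb.toAM, E_diff ha.toAM hb.toAM PB.id, fun φ h => ?_⟩
    refine (part2 hc ha hb hM hab hva hvb hs0 hs1 h).trans ?_
    exact mul_le_mul_of_nonneg_right (by linarith) (by linarith)
  · intro a b ha hb hM hab r hr s hs0 hs1
    refine ⟨sg_diff ha.toAM hb.toAM, ?_, fun φ h => ?_⟩
    · rw [E_diff ha.toAM hb.toAM PB.id]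
      change mean b - mean a = 0
      rw [hab, sub_self]
    · rw [mean_seg ha.toAM hb.toAM, hab] at h
      have hm : (1 - s) * mean a + s * mean a = mean a := by ring
      rw [hm] at h
      have h1 := hr φ h
      rw [hab, sub_self, zero_mul, sub_zero] at h1
      rw [E_diff ha.toAM hb.toAM h.pb, zero_mul, sub_zero]
      exact h1
  · intro a b ha hb hM hab φ h
    have hm1 : 1 ≤ mean a := by linarith
    have hD0 : 0 < 21 * (1 + e) + A1 + A2 + A4 := by positivity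
    have hD1 : 1 ≤ 21 * (1 + e) + A1 + A2 + A4 := by nlinarith
    refine ⟨⟨?_, fun J => ?_⟩, ?_⟩
    · simpa [div_eq_mul_inv] using h.pb.mul (PB.const (2:ℝ)⁻¹)
    · have h1 := part4 he.le hm1 (by linarith : 21 * (1 + e) ≤ 21 * (1 + e) + A1 + A2 + A4) hab J
      have h2 := h.bd J
      have h3 : dl (dl (fun k => φ k / 2)) J = dl (dl φ) J / 2 := by
        simp only [dl]; ring
      rw [h3, abs_div, abs_of_pos (by norm_num : (0:ℝ) < 2)]
      linarith
    · have hs1 : 1 ≤ √(mean a) := Real.one_le_sqrt.2 hm1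
      have hsm : √(mean a) ≤ mean a := by
        have := Real.mul_self_sqrt (by linarith : 0 ≤ mean a)
        nlinarith
      have hδ : |mean b - mean a| ≤ √(mean a) := hab.trans (div_le_self (by positivity) hD1)
      have hδ' := abs_le.1 hδ
      have hb0 : 0 ≤ mean b := by
        have : ∀ k, 0 ≤ b k * (k:ℝ) := fun k => mul_nonneg (hb.toAM.nn k) (Nat.cast_nonneg k)
        exact tsum_nonneg this
      have hBb : E b (fun k => ((k:ℝ) - mean a) ^ 12) ≤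
          (2 ^ 11 * (64 * (C12 + 1) + 1)) * mean a ^ 6 := by
        have e1 := shift12 (C := C12 + 1) hb.toAM hb.m12_le hδ
        refine e1.trans ?_
        have e3 : mean b ^ 6 ≤ (2 * mean a) ^ 6 := pow_le_pow_left₀ hb0 (by linarith) 6
        have e4 : (C12 + 1) * mean b ^ 6 ≤ (C12 + 1) * (2 * mean a) ^ 6 :=
          mul_le_mul_of_nonneg_left e3 (by linarith)
        have e5 : √(mean a) ^ 12 = mean a ^ 6 := by
          have : √(mean a) ^ 12 = (√(mean a) ^ 2) ^ 6 := by ring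
          rw [this, Real.sq_sqrt (by linarith)]
        have e6 : (C12 + 1) * (2 * mean a) ^ 6 = 64 * (C12 + 1) * mean a ^ 6 := by ring
        nlinarith
      have hBa : E a (fun k => ((k:ℝ) - mean a) ^ 12) ≤
          (2 ^ 11 * (64 * (C12 + 1) + 1)) * mean a ^ 6 := by
        have e1 : E a (fun k => ((k:ℝ) - mean a) ^ 12) ≤ (C12 + 1) * mean a ^ 6 := ha.m12_le
        refine e1.trans (mul_le_mul_of_nonneg_right ?_ (by positivity))
        nlinarith
      have d1 := dev he.le hm1 ha.toAM h hBa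
      have d2 := dev he.le hm1 hb.toAM h hBb
      have e2 : |E b (dl φ) - E a (dl φ)| ≤ |E b (dl φ) - dl φ ⌊mean a⌋₊| +
          |E a (dl φ) - dl φ ⌊mean a⌋₊| := by
        rw [abs_sub_comm (E a (dl φ))]
        have := abs_add_le (E b (dl φ) - dl φ ⌊mean a⌋₊) (dl φ ⌊mean a⌋₊ - E a (dl φ))
        rwa [sub_add_sub_cancel] at this
      refine e2.trans ((add_le_add d2 d1).trans ?_)
      have e3 : (1 + e) * √(mean a) * ((4 + 4 * e) * (1 + 2 ^ 11 * (64 * (C12 + 1) + 1))) +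
          (1 + e) * √(mean a) * ((4 + 4 * e) * (1 + 2 ^ 11 * (64 * (C12 + 1) + 1))) =
          A4 * √(mean a) := by rw [hA4]; ring
      rw [e3]
      exact mul_le_mul_of_nonneg_right (by linarith) (Real.sqrt_nonneg _)

theorem t_CRN : P_GRO → P_CRN := fun _ => main

end Pool.Agent.Q52.MK.CRN
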