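import Pool.Agent.Q291.MK.Stm11
import Pool.Agent.Q291.MK.Base2

/-!
# Job CA3 of project MK: convergence to a unique scaling limit for Poisson-binomial bare laws
-/

namespace Pool.Agent.Q52.MK.CA3

open Filter Topology Pool.Agent.Q291.MK Pool.Agent.Q291.MK.BetaAux Pool.Agent.Q291.MK.LimAux
open Pool.Agent.Q224.MK

theorem cl_pbl {C3 C8 C12 M e C : ℝ} (hC : Cst C3 C8 C12 M e C) (hPB : P_PB) (p : ℕ → ℝ) (n : ℕ)
    (hp : ∀ i, 0 ≤ p i ∧ p i ≤ 1) (hm : M ≤ mean (pbl p n)) : Cl C3 C8 C12 (pbl p n) := by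
  obtain ⟨h1, h2, h3, h4, h5, h6, -⟩ := hPB p n hp
  have hP := hC.pois _ hm
  have hM := hC.hM
  have hpm : mean (pois (mean (pbl p n))) = mean (pbl p n) := (bPOIS (mean (pbl p n)) (by linarith)).2.1
  have h8 := hP.m8_le
  have h12 := hP.m12_le
  rw [hpm] at h8 h12
  have h33 := hC.h3
  exact {
    toAM := h1
    vr_le := h3
    k3_le := h4.trans (by nlinarith)
    m8_le := h5.trans h8
    m12_le := h6.trans h12 }

/-- at the reference couplings the limiting law is a law -/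
theorem ref_law {C3 C8 C12 M e C : ℝ} (hC : Cst C3 C8 C12 M e C) {m : ℝ} (hm : M ≤ m)
    {ν : ℕ → ℕ} {x : ℕ → ℝ} (hx : ∀ l, 0 < x l) (hmean : ∀ l, mean (R^[ν l] (pois (x l))) = m)
    {b0 : ℕ → ℝ} (hb : ∀ i, Tendsto (fun l => (R^[ν l] (pois (x l))) i) atTop (𝓝 (b0 i))) :
    Law b0 := by
  have hM := hC.hM
  refine (bTIGHT (fun l => R^[ν l] (pois (x l))) b0 (m + m ^ 2)
      (fun l => am_it (bPOIS (x l) (hx l).le).1 (ν l)) (fun l => ?_) hb).1
  have hX : M ≤ x l := by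
    have h1 := mean_anti (bPOIS (x l) (hx l).le).1 (Nat.zero_le (ν l))
    simp only [Function.iterate_zero, id_eq] at h1
    rw [hmean, (bPOIS (x l) (hx l).le).2.1] at h1
    linarith
  have h1 := cl_it hC (hC.pois _ hX) (ν l) (by rw [hmean]; linarith) (ν l) le_rfl
  have h2 := vr_eq h1.toAM
  have h3 := h1.vr_le
  rw [hmean] at h2 h3
  linarith

theorem t_CA3 : P_PB → P_CA3 := by
  intro hPB
  obtain ⟨C3, C8, C12, M, e, C, hC⟩ := bCST
  obtain ⟨-, D2, hD2, hCMU⟩ := bCMU C3 C8 C12 M e C hC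
  obtain ⟨M1, hM1, hCA2⟩ := bCA2
  have hM := hC.hM
  refine ⟨max M1 (M + D2 + 1), hM1.trans (le_max_left _ _), fun m hm => ?_⟩
  have hm1 : M1 ≤ m := (le_max_left _ _).trans hm
  have hm2 : M + D2 + 1 ≤ m := (le_max_right _ _).trans hm
  obtain ⟨hex, b, hb, -⟩ := hCA2 m hm1
  refine ⟨hex, b, hb, ?_⟩
  choose X hX0 hXm _ using hex
  intro ν n p hν hp hlim
  have hXlim : ∀ (k : ℤ) (i : ℕ),
      Tendsto (fun l => (R^[((ν l : ℤ) + k).toNat] (pois (X (ν l)))) i) atTop (𝓝 (b k i)) :=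
    hb ν (fun l => X (ν l)) hν (fun l => hX0 _) (by simp only [hXm]; exact tendsto_const_nhds)
  have hlaw : Law (b 0) := by
    refine ref_law hC (by linarith) (ν := ν) (x := fun l => X (ν l)) (fun l => hX0 _)
      (fun l => hXm _) fun i => ?_
    simpa using hXlim 0 i
  have ham : ∀ l, AM (pbl (p l) (n l)) := fun l => (hPB (p l) (n l) (hp l)).1
  have hneg : ∀ κ i : ℕ, Tendsto (fun l => (R^[ν l - κ] (pbl (p l) (n l))) i) atTop
      (𝓝 (b (-(κ : ℤ)) i)) := by
    intro κ i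
    have h0 : Tendsto (fun l => (R^[ν l - κ] (pois (X (ν l)))) i) atTop (𝓝 (b (-(κ : ℤ)) i)) := by
      refine (hXlim (-(κ : ℤ)) i).congr fun l => ?_
      have e : ((ν l : ℤ) + -(κ : ℤ)).toNat = ν l - κ := by omega
      rw [e]
    refine tend_of_close h0 fun ε hε => ?_
    obtain ⟨N0, δ, hδ, h⟩ := hCMU m (by linarith) κ ε hε
    have h1 : ∀ᶠ l in atTop, |mean (R^[ν l] (pbl (p l) (n l))) - m| ≤ δ := by
      filter_upwards [Metric.tendsto_nhds.1 hlim δ hδ] with l hl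
      rw [Real.dist_eq] at hl
      exact hl.le
    have h2 : ∀ᶠ l in atTop, M < mean (R^[ν l] (pbl (p l) (n l))) :=
      hlim.eventually (lt_mem_nhds (by linarith))
    filter_upwards [h1, h2, hν.eventually_ge_atTop N0] with l hl1 hl3 hl2
    have hK : M ≤ mean (pbl (p l) (n l)) := by
      have h3 := mean_anti (ham l) (Nat.zero_le (ν l))
      simp only [Function.iterate_zero, id_eq] at h3
      linarith
    rw [abs_sub_comm]
    exact h (ν l) (ν l) (X (ν l)) (pbl (p l) (n l)) hl2 le_rfl (hX0 _)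
      (cl_pbl hC hPB (p l) (n l) (hp l) hK) (by rw [hXm, sub_self, abs_zero]; exact hδ.le) hl1 i
  have hpos : ∀ k i : ℕ, (R^[k] (b 0)) i = b k i := by
    intro k i
    have h1 := cont_iter bCONT (a := fun l => R^[ν l] (pois (X (ν l))))
      (fun l => (am_it (bPOIS _ (hX0 (ν l)).le).1 (ν l)).toLaw) hlaw
      (fun j => by simpa using hXlim 0 j) k i
    refine tendsto_nhds_unique h1 ((hXlim k i).congr fun l => ?_)
    have e : ((ν l : ℤ) + k).toNat = k + ν l := by omega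
    rw [e, Function.iterate_add_apply]
  intro k i
  rcases le_or_gt 0 k with hk | hk
  · obtain ⟨κ, rfl⟩ := Int.eq_ofNat_of_zero_le hk
    have h1 := cont_iter bCONT (a := fun l => R^[ν l] (pbl (p l) (n l)))
      (fun l => (am_it (ham l) (ν l)).toLaw) hlaw
      (fun j => by simpa using hneg 0 j) κ i
    rw [← hpos]
    refine h1.congr fun l => ?_
    have e : ((ν l : ℤ) + κ).toNat = κ + ν l := by omega
    rw [e, Function.iterate_add_apply]
  · obtain ⟨κ, rfl⟩ : ∃ κ : ℕ, k = -(κ : ℤ) := ⟨k.natAbs, by omega⟩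
    refine (hneg κ i).congr fun l => ?_
    have e : ((ν l : ℤ) + -(κ : ℤ)).toNat = ν l - κ := by omega
    rw [e]

end Pool.Agent.Q52.MK.CA3
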