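import Pool.Agent.Q52.MK.CA3

/-!
# Job CW of project MK: a Wilson loop close to one determines the renormalised coupling
-/

namespace Pool.Agent.Q52.MK.CW

open Filter Topology Pool.Agent.Q291.MK Pool.Agent.Q291.MK.BetaAux Pool.Agent.Q291.MK.LimAux
open Pool.Agent.Q224.MK

theorem pb_frac : PB (fun k => (k:ℝ) / (k + 3)) := by
  refine (PB.const 1).of_le fun k => ?_
  have hk : (0:ℝ) ≤ k := Nat.cast_nonneg k
  rw [abs_of_nonneg (by positivity), div_le_one (by positivity)]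
  linarith

theorem W_le_mean {a : ℕ → ℝ} (ha : AM a) : W a ≤ mean a / (mean a + 3) := by
  have h0 : 0 ≤ mean a := (bCRUDE a ha).1
  have hE : 0 < E a I := by
    have h1 := (bCHEB a ha).1
    obtain ⟨k, hk⟩ := ha.toLaw.mass_pos
    unfold E
    refine Summable.tsum_pos (ha.summ PB.I) (fun k => mul_nonneg (ha.nn k) (I_pos k).le) k
      (mul_pos hk (I_pos k))
  have hmono : Monotone (fun k : ℕ => (k:ℝ) / (k + 3)) := by
    intro k l hkl
    have h1 : (0:ℝ) ≤ k := Nat.cast_nonneg k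
    have h2 : (k:ℝ) ≤ l := by exact_mod_cast hkl
    change (k:ℝ) / (k + 3) ≤ (l:ℝ) / (l + 3)
    rw [div_le_div_iff₀ (by positivity) (by linarith)]
    nlinarith
  have h1 : W a ≤ E a (fun k => (k:ℝ) / (k + 3)) := by
    unfold W
    rw [div_le_iff₀ hE, mul_comm]
    exact (bCHEB a ha).1 _ pb_frac hmono
  refine h1.trans ?_
  set m := mean a with hm
  have h2 : ∀ k : ℕ, (k:ℝ) / (k + 3) ≤ (m / (m + 3) - 3 * m / (m + 3) ^ 2) + 3 / (m + 3) ^ 2 * k := by
    intro k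
    have hk : (0:ℝ) ≤ k := Nat.cast_nonneg k
    have h3 : (m / (m + 3) - 3 * m / (m + 3) ^ 2) + 3 / (m + 3) ^ 2 * k - (k:ℝ) / (k + 3) =
        3 * ((k:ℝ) - m) ^ 2 / ((k + 3) * (m + 3) ^ 2) := by
      field_simp
      ring
    have h4 : 0 ≤ 3 * ((k:ℝ) - m) ^ 2 / ((k + 3) * (m + 3) ^ 2) := by positivity
    linarith
  have hA : PB (fun k : ℕ => (m / (m + 3) - 3 * m / (m + 3) ^ 2) + 3 / (m + 3) ^ 2 * (k:ℝ)) :=
    (PB.const _).add ((PB.const _).mul PB.id)
  refine (ha.E_mono pb_frac hA h2).trans (le_of_eq ?_)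
  rw [ha.E_add (PB.const _) ((PB.const _).mul PB.id), ha.toLaw.E_const, E_const_mul]
  have h5 : E a (fun k => (k:ℝ)) = m := rfl
  rw [h5]
  field_simp
  ring

/-- the Wilson loop of the scaling limit as a function of the renormalised coupling -/
theorem wf (hW : P_WMON) : ∃ (M5 : ℝ) (Wf : ℝ → ℝ), 1 ≤ M5 ∧
    (∀ m : ℝ, M5 ≤ m → ∀ (ν : ℕ → ℕ) (x : ℕ → ℝ), Tendsto ν atTop atTop → (∀ l, 0 < x l) →
      Tendsto (fun l => mean (R^[ν l] (pois (x l)))) atTop (𝓝 m) →
      Tendsto (fun l => W (R^[ν l] (pois (x l)))) atTop (𝓝 (Wf m))) ∧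
    ∀ m1 m2 : ℝ, M5 ≤ m1 → m1 < m2 → Wf m1 < Wf m2 := by
  obtain ⟨C3, C8, C12, M, e, C, hC⟩ := bCST
  obtain ⟨M3, c, hM3, hc, hWM⟩ := hW C3 C8 C12 M e C hC
  obtain ⟨D, hD, hBM⟩ := bBMON C3 C8 C12 M e C hC
  obtain ⟨M1, hM1, hCA2⟩ := bCA2
  have hM := hC.hM
  -- choice of the limits
  have hch : ∀ m : ℝ, ∃ Wm : ℝ, max M1 M3 ≤ m →
      ∀ (ν : ℕ → ℕ) (x : ℕ → ℝ), Tendsto ν atTop atTop → (∀ l, 0 < x l) →
      Tendsto (fun l => mean (R^[ν l] (pois (x l)))) atTop (𝓝 m) →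
      Tendsto (fun l => W (R^[ν l] (pois (x l)))) atTop (𝓝 Wm) := by
    intro m
    by_cases hm : max M1 M3 ≤ m
    · obtain ⟨hex, b, hb, -⟩ := hCA2 m ((le_max_left _ _).trans hm)
      have hm3 : M3 ≤ m := (le_max_right _ _).trans hm
      choose X hX0 hXm _ using hex
      have hlaw : Law (b 0) := by
        refine CA3.ref_law hC (by linarith) (ν := fun l => l) (x := X) hX0 hXm fun i => ?_
        simpa using hb (fun l => l) X tendsto_id hX0
          (by simp only [hXm]; exact tendsto_const_nhds) 0 i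
      refine ⟨W (b 0), fun _ ν x hν hx hl => ?_⟩
      refine (bCONT (fun l => R^[ν l] (pois (x l))) (b 0)
        (fun l => (am_it (bPOIS _ (hx l).le).1 (ν l)).toLaw) hlaw (fun i => ?_)).2.2.2.2.2.2
      simpa using hb ν x hν hx hl 0 i
    · exact ⟨0, fun h => absurd h hm⟩
  choose Wf hWf using hch
  refine ⟨max M1 M3, Wf, by linarith [le_max_left M1 M3], fun m hm => hWf m hm, ?_⟩
  intro m1 m2 h1 h12
  obtain ⟨hex1, -⟩ := hCA2 m1 ((le_max_left _ _).trans h1)
  obtain ⟨hex2, -⟩ := hCA2 m2 ((le_max_left _ _).trans (h1.trans h12.le))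
  have hm3 : M3 ≤ m1 := (le_max_right _ _).trans h1
  choose X hX0 hXm _ using hex1
  choose Y hY0 hYm _ using hex2
  have hXY : ∀ N, X N ≤ Y N := by
    intro N
    by_contra h
    push Not at h
    have h2 := (hBM (Y N) (X N) N h.le (fun n hn => ?_) (hY0 N) N le_rfl).1
    · rw [hXm, hYm] at h2
      linarith
    · have h3 := mean_anti (bPOIS (Y N) (hY0 N).le).1 hn.le
      simp only at h3
      rw [hYm] at h3
      linarith
  have hkey : ∀ N, c * (m2 - m1) ≤ m2 ^ 2 * (W (R^[N] (pois (Y N))) - W (R^[N] (pois (X N)))) := by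
    intro N
    have h2 := hWM N (X N) (Y N) (hX0 N) (hXY N) (by rw [hXm]; exact hm3)
    rwa [hXm, hYm] at h2
  have hl1 := hWf m1 h1 (fun l => l) X tendsto_id hX0 (by simp only [hXm]; exact tendsto_const_nhds)
  have hl2 := hWf m2 (h1.trans h12.le) (fun l => l) Y tendsto_id hY0
    (by simp only [hYm]; exact tendsto_const_nhds)
  have hl : c * (m2 - m1) ≤ m2 ^ 2 * (Wf m2 - Wf m1) :=
    ge_of_tendsto' ((hl2.sub hl1).const_mul (m2 ^ 2)) hkey
  have h5 : 0 < c * (m2 - m1) := mul_pos hc (by linarith)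
  by_contra h
  push Not at h
  have : m2 ^ 2 * (Wf m2 - Wf m1) ≤ 0 := mul_nonpos_of_nonneg_of_nonpos (sq_nonneg _) (by linarith)
  linarith

theorem t_CW : P_WMON → P_CW := by
  intro hW M4
  obtain ⟨M5, Wf, hM5, hlimW, hmonW⟩ := wf hW
  obtain ⟨C3, C8, M', D, Q, -, -, hD, hM', -, hORB⟩ := bORB
  -- a common lower bound for the renormalised couplings
  obtain ⟨M6, h64, h65, h66⟩ : ∃ M6 : ℝ, M4 ≤ M6 ∧ M5 ≤ M6 ∧ M' ≤ M6 :=
    ⟨max M4 (max M5 M'), le_max_left _ _, (le_max_left _ _).trans (le_max_right _ _),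
      (le_max_right _ _).trans (le_max_right _ _)⟩
  have h6 : 0 < M6 := by linarith
  refine ⟨M6 / (M6 + 3), by rw [div_lt_one (by linarith)]; linarith, fun w hw hw1 => ?_⟩
  -- every admissible sequence has a subsequence along which the coupling converges
  have hsub : ∀ (ν : ℕ → ℕ) (x : ℕ → ℝ), Tendsto ν atTop atTop → (∀ l, 0 < x l) →
      Tendsto (fun l => W (R^[ν l] (pois (x l)))) atTop (𝓝 w) →
      ∃ (m : ℝ) (φ : ℕ → ℕ), M6 ≤ m ∧ StrictMono φ ∧
        Tendsto (fun l => mean (R^[ν (φ l)] (pois (x (φ l))))) atTop (𝓝 m) ∧ Wf m = w := by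
    intro ν x hν hx hl
    have ham : ∀ l, AM (R^[ν l] (pois (x l))) := fun l => am_it (bPOIS _ (hx l).le).1 (ν l)
    have hlow : ∀ᶠ l in atTop, M6 ≤ mean (R^[ν l] (pois (x l))) := by
      filter_upwards [hl.eventually (lt_mem_nhds hw)] with l hl1
      have h1 := W_le_mean (ham l)
      have h2 := (bCRUDE _ (ham l)).1
      have h3 := hl1.trans_le h1
      rw [div_lt_div_iff₀ (by linarith) (by linarith)] at h3
      nlinarith
    have hup : ∀ᶠ l in atTop, mean (R^[ν l] (pois (x l))) ≤ 2 * D / (1 - w) := by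
      filter_upwards [hl.eventually (gt_mem_nhds (show w < (1 + w) / 2 by linarith)), hlow]
        with l hl1 hl2
      have h1 := ((hORB (x l) (hx l) (ν l)).1 (h66.trans hl2)).2.1
      have h2 : 0 < mean (R^[ν l] (pois (x l))) := by linarith
      have h3 : (1 - w) / 2 < D / mean (R^[ν l] (pois (x l))) := by linarith
      rw [lt_div_iff₀ h2] at h3
      rw [le_div_iff₀ (by linarith)]
      nlinarith
    obtain ⟨l0, hl0⟩ := eventually_atTop.1 (hlow.and hup)
    obtain ⟨m, hmI, φ, hφ, hφm⟩ := (isCompact_Icc (a := M6) (b := 2 * D / (1 - w))).tendsto_subseq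
      (x := fun l => mean (R^[ν (l + l0)] (pois (x (l + l0)))))
      (fun l => ⟨(hl0 (l + l0) (by omega)).1, (hl0 (l + l0) (by omega)).2⟩)
    have hφ' : StrictMono (fun l => φ l + l0) := fun a b hab => by
      have := hφ hab
      simp only
      omega
    refine ⟨m, fun l => φ l + l0, hmI.1, hφ', hφm, ?_⟩
    have h1 := hlimW m (h65.trans hmI.1) (fun l => ν (φ l + l0)) (fun l => x (φ l + l0))
      (hν.comp hφ'.tendsto_atTop) (fun l => hx _) hφm
    exact tendsto_nhds_unique h1 (hl.comp hφ'.tendsto_atTop)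
  by_cases hex : ∃ (ν : ℕ → ℕ) (x : ℕ → ℝ), Tendsto ν atTop atTop ∧ (∀ l, 0 < x l) ∧
      Tendsto (fun l => W (R^[ν l] (pois (x l)))) atTop (𝓝 w)
  · obtain ⟨ν0, x0, hν0, hx0, hl0⟩ := hex
    obtain ⟨m, -, hm, -, -, hmw⟩ := hsub ν0 x0 hν0 hx0 hl0
    refine ⟨m, h64.trans hm, fun ν x hν hx hl => ?_⟩
    refine tendsto_of_subseq_tendsto fun ns hns => ?_
    obtain ⟨m', φ, hm', hφ, hφm, hmw'⟩ := hsub (fun l => ν (ns l)) (fun l => x (ns l))
      (hν.comp hns) (fun l => hx _) (hl.comp hns)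
    refine ⟨φ, ?_⟩
    have hmm : m' = m := by
      rcases lt_trichotomy m' m with h | h | h
      · have := hmonW m' m (h65.trans hm') h
        linarith
      · exact h
      · have := hmonW m m' (h65.trans hm) h
        linarith
    rw [← hmm]
    exact hφm
  · exact ⟨M4, le_rfl, fun ν x hν hx hl => absurd ⟨ν, x, hν, hx, hl⟩ hex⟩

end Pool.Agent.Q52.MK.CW
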